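import Pool.Agent.MP_9c45e8_nt.I2

/-!
The Mazur-Tate refined relation fails for the optimal curve 14a1 (the modular curve `X₀(14)`)
at the prime `p = 7`: the left-hand side is `1` and the right-hand side is `-1` in `(ℤ/7)ˣ`.
-/

open MP9c45e8

theorem Pool.Agent.Results.MP_9c45e8_nt.FourteenA.result :
    ∃ (sym : ℚ → ℤ) (u : ℤ_[7]ˣ), MTData 7 E14 14 sym 3 u ∧
      lhs 7 sym 3 = 1 ∧ rhs 7 sym u = -1 ∧ lhs 7 sym 3 ≠ rhs 7 sym u := by
  obtain ⟨sym, u, hdata, hl, hr⟩ := counterexample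
  exact ⟨sym, u, hdata, hl, hr, by rw [hl, hr]; decide⟩
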